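import Pool.Agent.H61.HB.Flat2

set_option autoImplicit false

open Pool.HyperBurgers

/-- For `r > 3/2`, trigonometric polynomials with a global solution that becomes small immediately
are dense in `H^(-r)`. -/
theorem Pool.Agent.Results.MP_91403e_an.DenseInWeakNorms.result :
    ∀ (ν r ε : ℝ) (u₀ : Field), 0 < ν → 3 / 2 < r → 0 < ε → InH (-r) u₀ → RealValued u₀ →
      ∃ v₀ : Field, {k : ℤ × ℤ | ∃ j, v₀ j k ≠ 0}.Finite ∧ RealValued v₀ ∧
        hsq (-r) (v₀ - u₀) < ε ∧ ∀ s : ℝ, 2 ≤ s → GlobalData ν s v₀ ∧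
          ∀ (T : ℝ) (v : ℝ → Field), StrongSolution ν s T v → v 0 = v₀ →
            ∀ t ∈ Set.Icc ε T, hsq (-1) (v t) < ε :=
  dense_weak
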