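import Pool.Agent.H61.HB.Flat3

set_option autoImplicit false

open Pool.HyperBurgers

/-- Uniform `H^(-3/2)` neighbourhoods of all triangular fields consist of data with a global strong
solution. -/
theorem Pool.Agent.Results.MP_91403e_an.NearTriangular.result :
    ∀ ν X : ℝ, 0 < ν → 0 ≤ X →
      ∃ δ : ℝ, 0 < δ ∧ ∀ (s : ℝ) (m : ℝ × ℝ) (u₀ v₀ : Field), 2 ≤ s → m ≠ 0 →
        InH s u₀ → RealValued u₀ → Triangular m u₀ → fluct u₀ ≤ X →
        InH s v₀ → RealValued v₀ → hsq (-(3 / 2)) (v₀ - u₀) < δ → GlobalData ν s v₀ :=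
  near_triangular32
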