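import Pool.Agent.H61.HB.Flat3

set_option autoImplicit false

open Pool.HyperBurgers

/-- The set of data with a global strong solution whose fluctuation decays is open for the
`H^(-3/2)` norm. -/
theorem Pool.Agent.Results.MP_91403e_an.OpenInHMinusThreeHalves.result :
    ∀ (ν s : ℝ) (u₀ : Field), 0 < ν → 2 ≤ s → InH s u₀ → RealValued u₀ → GlobalData ν s u₀ →
      ∃ δ : ℝ, 0 < δ ∧ ∀ v₀ : Field, InH s v₀ → RealValued v₀ →
        hsq (-(3 / 2)) (v₀ - u₀) < δ → GlobalData ν s v₀ :=
  open_set32
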