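import Pool.Agent.H61.HB.Flat3

set_option autoImplicit false

open Pool.HyperBurgers

/-- Fields with period `2π/n` whose homogeneous `H^(-3/2)` norm is at most `c ν n^(3/2)` have a
global strong solution. -/
theorem Pool.Agent.Results.MP_91403e_an.SmallPeriods.result :
    ∃ c : ℝ, 0 < c ∧ ∀ (ν s : ℝ) (n : ℕ) (v₀ : Field), 0 < ν → 2 ≤ s → 1 ≤ n →
      InH s v₀ → RealValued v₀ → Periodic n v₀ →
        hneg32 v₀ < (c * ν) ^ 2 * (n : ℝ) ^ 3 → GlobalData ν s v₀ :=
  small_period32
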